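import Pool.Agent.H60.NSIns.Cplx
import Pool.Agent.H60.NSIns.Gen3

/-!
MP_3ea55a_an, Q1: the sequence `[n sin n]` is good for multiple convergence of powers; moreover the
multiple averages along `[n sin n]` have the same `L²` limit as the averages along `n`, for all
integer coefficients.
-/

set_option autoImplicit false

open MeasureTheory Filter Topology
open scoped ENNReal

namespace Pool.Agent.Results.MP_3ea55a_an.MultipleAverages

universe u

/-- The average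
`avg T a c f N x = (1/N) ∑_{n=1}^{N} f_1(T^{c_1 a(n)} x) f_2(T^{c_2 a(n)} x) ⋯ f_ℓ(T^{c_ℓ a(n)} x)`. -/
noncomputable def avg {X : Type u} [MeasurableSpace X] (T : X ≃ᵐ X) (a : ℕ → ℤ) {ℓ : ℕ}
    (c : Fin ℓ → ℤ) (f : Fin ℓ → X → ℂ) (N : ℕ) (x : X) : ℂ :=
  (1 / (N : ℂ)) * ∑ n ∈ Finset.Icc 1 N, ∏ j : Fin ℓ, f j ((T.toEquiv ^ (c j * a n)) x)

/-- `ConvergesTo μ A G`: the functions `A N` converge to `G` in `L²(μ)`. -/
def ConvergesTo {X : Type u} [MeasurableSpace X] (μ : Measure X) (A : ℕ → X → ℂ) (G : X → ℂ) :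
    Prop :=
  MemLp G 2 μ ∧ Tendsto (fun N => eLpNorm (fun x => A N x - G x) 2 μ) atTop (𝓝 0)

/-- The integer sequence `a` is good for multiple convergence of powers: for every invertible
measure preserving transformation `T` of a probability space, every `ℓ` and all `f_1, …, f_ℓ` in
`L^∞(μ)`, the averages `(1/N) ∑_{n=1}^{N} T^{a(n)} f_1 · T^{2a(n)} f_2 ⋯ T^{ℓ a(n)} f_ℓ` converge in
`L²(μ)`. -/
def GoodForPowers (a : ℕ → ℤ) : Prop :=
  ∀ (X : Type u) [MeasurableSpace X] (μ : Measure X) [IsProbabilityMeasure μ] (T : X ≃ᵐ X),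
    MeasurePreserving T μ μ → ∀ (ℓ : ℕ) (f : Fin ℓ → X → ℂ), (∀ j, MemLp (f j) ∞ μ) →
      ∃ G : X → ℂ, ConvergesTo μ (avg T a (fun j : Fin ℓ => ((j : ℕ) : ℤ) + 1) f) G

/-- The sequence `a(n) = [n sin n]`. -/
noncomputable def nSin (n : ℕ) : ℤ := ⌊(n : ℝ) * Real.sin (n : ℝ)⌋

/-- The sequence `[n sin n]` is good for multiple convergence of powers. Moreover, for every
invertible measure preserving transformation `T` of a probability space, all integers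
`c_1, …, c_ℓ` and all `f_1, …, f_ℓ` in `L^∞(μ)`, the averages of
`T^{c_1 a(n)} f_1 ⋯ T^{c_ℓ a(n)} f_ℓ` with `a(n) = [n sin n]` and the averages of
`T^{c_1 n} f_1 ⋯ T^{c_ℓ n} f_ℓ` converge in `L²(μ)` to the same function. -/
theorem result : GoodForPowers.{u} nSin ∧
    ∀ (X : Type u) [MeasurableSpace X] (μ : Measure X) [IsProbabilityMeasure μ] (T : X ≃ᵐ X),
      MeasurePreserving T μ μ → ∀ (ℓ : ℕ) (c : Fin ℓ → ℤ) (f : Fin ℓ → X → ℂ),
        (∀ j, MemLp (f j) ∞ μ) →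
        ∃ G : X → ℂ, ConvergesTo μ (avg T nSin c f) G ∧
          ConvergesTo μ (avg T (fun n => (n : ℤ)) c f) G := by
  have h : ∀ (X : Type u) [MeasurableSpace X] (μ : Measure X) [IsProbabilityMeasure μ]
      (T : X ≃ᵐ X), MeasurePreserving T μ μ → ∀ (ℓ : ℕ) (c : Fin ℓ → ℤ) (f : Fin ℓ → X → ℂ),
        (∀ j, MemLp (f j) ∞ μ) →
        ∃ G : X → ℂ, ConvergesTo μ (avg T nSin c f) G ∧
          ConvergesTo μ (avg T (fun n => (n : ℤ)) c f) G := by
    intro X _ μ _ T hT ℓ c f hf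
    obtain ⟨G, hG, h1, h2⟩ := H60.NSIns.linf_limit T c
      (H60.NSIns.lift H60.NSIns.sn H60.NSIns.real_cauchy)
      (H60.NSIns.liftS H60.NSIns.sn H60.NSIns.idn H60.NSIns.real_same) hT hf
    exact ⟨G, ⟨hG, h1⟩, ⟨hG, h2⟩⟩
  refine ⟨fun X _ μ _ T hT ℓ f hf => ?_, h⟩
  obtain ⟨G, hG, _⟩ := h X μ T hT ℓ (fun j : Fin ℓ => ((j : ℕ) : ℤ) + 1) f hf
  exact ⟨G, hG⟩

end Pool.Agent.Results.MP_3ea55a_an.MultipleAverages
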