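import Pool.Agent.H62.NSin.Homog

open MeasureTheory Filter Finset Topology Pool.Agent.H62.NSin

universe u

/-- Seminorm control of the multiple averages along `⌊n sin n⌋`: for every `ℓ` there is an order
`s + 1` such that, if one of the bounded functions `f i` has Host-Kra seminorm of order `s + 1`
equal to zero, then the averages of `T^{c_1 a(n)} f_1 ⋯ T^{c_ℓ a(n)} f_ℓ`, `a(n) = ⌊n sin n⌋`,
with distinct integers `c_i` (in particular `c_i = i`), tend to zero in `L²`, even uniformly over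
all bounded weights. -/
theorem Pool.Agent.Results.MP_3ea55a_an.SeminormControl.result (ℓ : ℕ) :
    ∃ s : ℕ, ∀ (X : Type u) [MeasurableSpace X] (μ : Measure X) [IsProbabilityMeasure μ]
      (T : X ≃ᵐ X), MeasurePreserving T μ μ →
      ∀ (c : Fin ℓ → ℤ), Function.Injective c →
      ∀ f : Fin ℓ → X → ℝ, (∀ i, Measurable (f i)) → (∀ i, ∃ C : ℝ, ∀ x, |f i x| ≤ C) →
      ∀ i₀, c i₀ ≠ 0 → hostKra T μ s (f i₀) = 0 →
      ∀ ε : ℝ, 0 < ε → ∀ᶠ N : ℕ in atTop, ∀ w : ℕ → ℝ, (∀ n, |w n| ≤ 1) →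
        ∫ x, ((1 / (N : ℝ)) * ∑ n ∈ Icc 1 N, w n * ∏ i : Fin ℓ,
          f i ((T.toEquiv ^ (c i * ⌊(n : ℝ) * Real.sin (n : ℝ)⌋)) x)) ^ 2 ∂μ ≤ ε :=
  control_bounded.{u} ℓ
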