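import Pool.Agent.H62.NSin.Homog

open MeasureTheory Filter Finset Topology Pool.Agent.H62.NSin

universe u

/-- In a weakly mixing system, for every `ℓ`, all distinct nonzero integers `c_i` and all bounded
measurable functions, the averages along `a(n) = ⌊n sin n⌋` of
`T^{c_1 a(n)} f_1 ⋯ T^{c_ℓ a(n)} f_ℓ` converge in `L²` to the product of the integrals, even
after inserting arbitrary bounded weights. -/
theorem Pool.Agent.Results.MP_3ea55a_an.WeaklyMixing.result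
    (X : Type u) [MeasurableSpace X] (μ : Measure X) [IsProbabilityMeasure μ] (T : X ≃ᵐ X)
    (hT : MeasurePreserving T μ μ) (hW : WeakMix T μ) (ℓ : ℕ) (c : Fin ℓ → ℤ)
    (hc : Function.Injective c) (hc0 : ∀ i, c i ≠ 0) (f : Fin ℓ → X → ℝ)
    (hf : ∀ i, Measurable (f i)) (hb : ∀ i, ∃ C : ℝ, ∀ x, |f i x| ≤ C) (ε : ℝ) (hε : 0 < ε) :
    ∀ᶠ N : ℕ in atTop, ∀ w : ℕ → ℝ, (∀ n, |w n| ≤ 1) →
      ∫ x, ((1 / (N : ℝ)) * ∑ n ∈ Icc 1 N, w n * (∏ i : Fin ℓ,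
        f i ((T.toEquiv ^ (c i * ⌊(n : ℝ) * Real.sin (n : ℝ)⌋)) x)
          - ∏ i, ∫ x, f i x ∂μ)) ^ 2 ∂μ ≤ ε :=
  wm_bounded ℓ X μ T hT hW c hc hc0 f hf hb ε hε
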